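import Pool.Agent.N110.CC.RStm

/-!
# Project CC (helper110), leaf PUSH (helper252): effective divisors below pull backs
-/

set_option autoImplicit false

open FF Pool.Agent.W602.GT Pool.Agent.Y172 Pool.Agent.R887 Pool.Agent.N110.CC

namespace Pool.Agent.N252.CC

theorem lies_unique {K K' : Type} [Field K] [Algebra ℂ K] [Field K'] [Algebra ℂ K']
    {π : K →ₐ[ℂ] K'} {Q : Place ℂ K'} {P P' : Place ℂ K} {e e' : ℕ}
    (h : LiesOver π Q P e) (h' : LiesOver π Q P' e') : P = P' := by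
  obtain ⟨h1, h2⟩ := h
  obtain ⟨h1', h2'⟩ := h'
  have key : ∀ f : K, (e : ℤ) * P.ord f = e' * P'.ord f := fun f => by rw [← h2, ← h2']
  obtain ⟨t, -, ht⟩ := P.surj
  obtain ⟨t', -, ht'⟩ := P'.surj
  have a1 := key t
  have a2 := key t'
  rw [ht, mul_one] at a1
  rw [ht', mul_one] at a2
  have d1 : (e' : ℤ) ∣ e := ⟨_, a1⟩
  have d2 : (e : ℤ) ∣ e' := ⟨_, a2.symm⟩
  have e1 : e = e' := Nat.dvd_antisymm (Int.natCast_dvd_natCast.1 d2) (Int.natCast_dvd_natCast.1 d1)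
  have he : (e : ℤ) ≠ 0 := by exact_mod_cast (by omega : e ≠ 0)
  refine Place.ext (funext fun f => ?_)
  have := key f
  rw [← e1] at this
  exact mul_left_cancel₀ he this

theorem leafPUSH : S_PUSH := by
  intro K K' _ _ _ _ N N' n y y' _ _ _ _ π _ A' hA'
  classical
  obtain ⟨hA0, hAf⟩ := hA'
  obtain ⟨Z, hZ⟩ : ∃ Z : Finset (Place ℂ K'), ∀ Q, Q ∈ Z ↔ IsPrimeDivisor y' Q ∧ A' Q ≠ 0 :=
    ⟨hAf.toFinset, fun Q => by simp⟩
  have hterm : ∀ (P : Place ℂ K), ∀ Q ∈ Z,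
      0 ≤ if ∃ e, LiesOver π Q P e then A' Q else 0 := by
    intro P Q hQ
    split_ifs
    · exact hA0 Q ((hZ Q).1 hQ).1
    · exact le_rfl
  refine ⟨fun P => ∑ Q ∈ Z, if ∃ e, LiesOver π Q P e then A' Q else 0, ⟨fun P _ =>
    Finset.sum_nonneg (hterm P), ?_⟩, ?_⟩
  · have hfin : (⋃ Q ∈ Z, {P : Place ℂ K | ∃ e, LiesOver π Q P e}).Finite := by
      refine Set.Finite.biUnion Z.finite_toSet fun Q _ => ?_
      refine Set.Subsingleton.finite ?_
      rintro P ⟨e, he⟩ P' ⟨e', he'⟩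
      exact lies_unique he he'
    refine hfin.subset ?_
    rintro P ⟨-, hP⟩
    by_contra hcon
    apply hP
    refine Finset.sum_eq_zero fun Q hQ => ?_
    rw [if_neg]
    intro he
    exact hcon (Set.mem_biUnion (show Q ∈ (Z : Set _) from hQ) he)
  · intro Q P e hQ he
    have h0 : 0 ≤ ∑ Q ∈ Z, if ∃ e, LiesOver π Q P e then A' Q else 0 :=
      Finset.sum_nonneg (hterm P)
    by_cases hQ0 : A' Q = 0
    · rw [hQ0]
      positivity
    · have h1 : (if ∃ e, LiesOver π Q P e then A' Q else 0) ≤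
          ∑ Q ∈ Z, if ∃ e, LiesOver π Q P e then A' Q else 0 :=
        Finset.single_le_sum (hterm P) ((hZ Q).2 ⟨hQ, hQ0⟩)
      rw [if_pos ⟨e, he⟩] at h1
      have h2 : (1 : ℚ) ≤ e := by exact_mod_cast he.1
      show A' Q ≤ e * ∑ Q ∈ Z, if ∃ e, LiesOver π Q P e then A' Q else 0
      nlinarith

end Pool.Agent.N252.CC
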